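import Pool.Agent.Lib.MP_4fbe7c_an.ND.Iface
import Pool.Agent.Lib.MP_4fbe7c_an.ND.Base

/-! Project ND, module CMP: the comparison principle (helper92). -/

set_option autoImplicit false

open Set MeasureTheory Filter Topology

namespace Pool.Agent.Lib.MP_4fbe7c_an.ND.H92

open Pool.Agent.Lib.MP_4fbe7c_an.ND

/-- A function with a negative derivative at `t` is larger than `f t` a little before `t`. -/
theorem eventually_lt_of_deriv_neg {f : ℝ → ℝ} {D t : ℝ} (h : HasDerivAt f D t) (hD : D < 0) :
    ∀ᶠ s in 𝓝[<] t, f t < f s := by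
  have h1 := hasDerivAt_iff_tendsto_slope.mp h
  have h2 : Tendsto (slope f t) (𝓝[<] t) (𝓝 D) :=
    h1.mono_left (nhdsWithin_mono _ fun s hs => ne_of_lt hs)
  filter_upwards [h2.eventually_lt_const hD, self_mem_nhdsWithin] with s hs hst
  simp only [mem_Iio] at hst
  rw [slope_def_field] at hs
  by_contra hc
  push Not at hc
  have h3 : 0 ≤ (f s - f t) / (s - t) :=
    div_nonneg_of_nonpos (by linarith) (by linarith)
  linarith

theorem cmp_st (hMxp : MxpStatement) : CmpStatement := by
  intro p Ω q z g H z' d K B η T hΩ hE hd hK hB hη hineq h0 t₁ ht₁ ht₁T x₁ hx₁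
  -- the claim with a positive error
  have key : ∀ ε : ℝ, 0 < ε → ∀ t, 0 ≤ t → t ≤ T → ∀ x ∈ closure Ω,
      Real.exp (-(K * t)) * z t x - (B + η * t) - ε * t ≤ 0 := by
    intro ε hε t₂ ht₂ ht₂T x₂ hx₂
    set F : ℝ × Eu p → ℝ := fun a =>
      Real.exp (-(K * a.1)) * z a.1 a.2 - (B + η * a.1) - ε * a.1 with hF
    have hcpt : IsCompact (Icc (0 : ℝ) T ×ˢ closure Ω) := isCompact_Icc.prod hΩ.isCompact
    have hne : (Icc (0 : ℝ) T ×ˢ closure Ω).Nonempty :=
      ⟨(t₂, x₂), ⟨ht₂, ht₂T⟩, hx₂⟩
    have hcz : ContinuousOn (fun a : ℝ × Eu p => z a.1 a.2) (Icc 0 T ×ˢ closure Ω) :=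
      hE.cz.mono fun a ha => ⟨ha.1.1, ha.2⟩
    have hcont : ContinuousOn F (Icc 0 T ×ˢ closure Ω) := by
      have e1 : ContinuousOn (fun a : ℝ × Eu p => Real.exp (-(K * a.1)))
          (Icc 0 T ×ˢ closure Ω) := by fun_prop
      have e2 : ContinuousOn (fun a : ℝ × Eu p => B + η * a.1)
          (Icc 0 T ×ˢ closure Ω) := by fun_prop
      have e3 : ContinuousOn (fun a : ℝ × Eu p => ε * a.1)
          (Icc 0 T ×ˢ closure Ω) := by fun_prop
      exact ((e1.mul hcz).sub e2).sub e3
    obtain ⟨⟨t, x⟩, ⟨⟨ht0, htT⟩, hx⟩, hmax⟩ := hcpt.exists_isMaxOn hne hcont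
    simp only at ht0 htT hx
    have hmax' : ∀ s, 0 ≤ s → s ≤ T → ∀ y ∈ closure Ω, F (s, y) ≤ F (t, x) :=
      fun s hs hsT y hy => hmax ⟨⟨hs, hsT⟩, hy⟩
    refine le_trans (hmax' t₂ ht₂ ht₂T x₂ hx₂) ?_
    by_contra hc
    push Not at hc
    -- the maximum is at a positive time
    have htpos : 0 < t := by
      rcases eq_or_lt_of_le ht0 with h1 | h1
      · exfalso
        rw [← h1] at hc
        simp only [hF] at hc
        have := h0 x hx
        simp at hc
        linarith
      · exact h1
    have hexp : 0 < Real.exp (-(K * t)) := Real.exp_pos _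
    have hFtx : F (t, x) = Real.exp (-(K * t)) * z t x - (B + η * t) - ε * t := rfl
    have hzpos : 0 < z t x := by
      by_contra hz
      push Not at hz
      have h1 : Real.exp (-(K * t)) * z t x ≤ 0 :=
        mul_nonpos_of_nonneg_of_nonpos hexp.le hz
      have h2 : 0 ≤ η * t := mul_nonneg hη ht0
      have h3 : 0 ≤ ε * t := mul_nonneg hε.le ht0
      rw [hFtx] at hc
      linarith
    -- `x` is a maximum point of `z t`
    have hxmax : ∀ y ∈ closure Ω, z t y ≤ z t x := by
      intro y hy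
      have h1 := hmax' t ht0 htT y hy
      simp only [hF] at h1
      have h2 : Real.exp (-(K * t)) * z t y ≤ Real.exp (-(K * t)) * z t x := by linarith
      exact le_of_mul_le_mul_left h2 hexp
    have htr := (hMxp p Ω q (z t) (g t) (H t) x hΩ (hE.C2 htpos) (hE.neu t htpos) hx hxmax).2
    have hz' : z' t x ≤ K * z t x + η := by
      have h1 := hineq t htpos htT x hx hzpos
      have h2 : d * tr (H t x) ≤ 0 := mul_nonpos_of_nonneg_of_nonpos hd.le htr
      linarith
    -- the time derivative is negative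
    have hder : HasDerivAt (fun s => F (s, x))
        (Real.exp (-(K * t)) * (z' t x - K * z t x) - η - ε) t := by
      have h1 : HasDerivAt (fun s => z s x) (z' t x) t := hE.dt t htpos x hx
      have h2 : HasDerivAt (fun s : ℝ => Real.exp (-(K * s))) (Real.exp (-(K * t)) * (-K)) t := by
        have h3 : HasDerivAt (fun s : ℝ => -(K * s)) (-K) t := by
          have h6 : HasDerivAt (fun s : ℝ => K * s) (K * 1) t := (hasDerivAt_id t).const_mul K
          rw [mul_one] at h6
          exact h6.fun_neg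
        exact h3.exp
      have h3 : HasDerivAt (fun s : ℝ => B + η * s) η t := by
        have := ((hasDerivAt_id t).const_mul η).const_add B
        simpa using this
      have h4 : HasDerivAt (fun s : ℝ => ε * s) ε t := by
        have := (hasDerivAt_id t).const_mul ε
        simpa using this
      have h5 := ((h2.mul h1).sub h3).sub h4
      refine h5.congr_deriv ?_
      ring
    have hneg : Real.exp (-(K * t)) * (z' t x - K * z t x) - η - ε < 0 := by
      have h1 : Real.exp (-(K * t)) * (z' t x - K * z t x) ≤ Real.exp (-(K * t)) * η :=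
        mul_le_mul_of_nonneg_left (by linarith) hexp.le
      have h2 : Real.exp (-(K * t)) ≤ 1 := by
        rw [Real.exp_le_one_iff]
        have := mul_nonneg hK ht0
        linarith
      have h3 : Real.exp (-(K * t)) * η ≤ 1 * η := mul_le_mul_of_nonneg_right h2 hη
      linarith
    have hev := eventually_lt_of_deriv_neg hder hneg
    have hev2 : ∀ᶠ s in 𝓝[<] t, 0 < s := by
      have : ∀ᶠ s in 𝓝 t, 0 < s := lt_mem_nhds htpos
      exact this.filter_mono nhdsWithin_le_nhds
    obtain ⟨s, hs1, hs2, hs3⟩ :=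
      (hev.and (hev2.and (self_mem_nhdsWithin : ∀ᶠ s in 𝓝[<] t, s ∈ Iio t))).exists
    have hs4 : s < t := hs3
    have := hmax' s hs2.le (hs4.le.trans htT) x hx
    linarith
  -- let the error tend to zero
  have h1 : Real.exp (-(K * t₁)) * z t₁ x₁ - (B + η * t₁) ≤ 0 := by
    by_contra hc
    push Not at hc
    set c := Real.exp (-(K * t₁)) * z t₁ x₁ - (B + η * t₁) with hcdef
    have hε : 0 < c / (2 * (t₁ + 1)) := by positivity
    have h2 := key _ hε t₁ ht₁ ht₁T x₁ hx₁
    have h3 : c / (2 * (t₁ + 1)) * t₁ < c := by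
      have h4 : c / (2 * (t₁ + 1)) * t₁ = c * (t₁ / (2 * (t₁ + 1))) := by ring
      rw [h4]
      have h5 : t₁ / (2 * (t₁ + 1)) < 1 := by
        rw [div_lt_one (by positivity)]
        linarith
      nlinarith
    linarith
  have hexp : 0 < Real.exp (K * t₁) := Real.exp_pos _
  have h2 : z t₁ x₁ = Real.exp (K * t₁) * (Real.exp (-(K * t₁)) * z t₁ x₁) := by
    rw [← mul_assoc, ← Real.exp_add]
    simp
  rw [h2, mul_comm (B + η * t₁)]
  exact mul_le_mul_of_nonneg_left (by linarith) hexp.le

end Pool.Agent.Lib.MP_4fbe7c_an.ND.H92
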